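import Mathlib
import Pool.Agent.Helper92.Nil2Minimal

/-!
A positive answer to Q1 of MP_dac110_gt: the product of any family of locally compact minimal
groups of nilpotency class at most two is minimal; in particular so is every power of one such
group.
-/

set_option autoImplicit false

open Topology

universe u v

namespace Pool.Agent.Results.MP_dac110_gt.ProductsMinimal

/-- A topological group is minimal if every coarser Hausdorff group topology on it is equal to the
given topology. -/
def IsMinimalGroup (G : Type u) [Group G] [τ : TopologicalSpace G] : Prop :=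
  ∀ σ : TopologicalSpace G, @IsTopologicalGroup G σ _ → @T2Space G σ →
    (∀ U : Set G, IsOpen[σ] U → IsOpen[τ] U) → ∀ U : Set G, IsOpen[τ] U → IsOpen[σ] U

theorem result {ι : Type v} (G : ι → Type u) [∀ i, Group (G i)] [∀ i, TopologicalSpace (G i)]
    [∀ i, IsTopologicalGroup (G i)] [∀ i, T2Space (G i)] [∀ i, LocallyCompactSpace (G i)]
    (hnil : ∀ i, commutator (G i) ≤ Subgroup.center (G i))
    (hmin : ∀ i, IsMinimalGroup (G i)) :
    IsMinimalGroup (∀ i, G i) :=
  Pool.Agent.Helper92.Nil2Minimal.main
    (fun i g h => hnil i (Subgroup.commutator_mem_commutator (Subgroup.mem_top g)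
      (Subgroup.mem_top h)))
    hmin

end Pool.Agent.Results.MP_dac110_gt.ProductsMinimal
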